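import Pool.Agent.Y501.SY.AmenU

/-!
Averaging a bounded closed two-form over an amenable covering when finite sums of its translates
are uniformly positive outside a set with small components.
-/

set_option autoImplicit false

open Set Filter Topology MeasureTheory
open scoped Manifold ContDiff

noncomputable section

namespace Pool.Agent.V11153.SY

open Pool.Agent.Y501.SY

theorem mean_sum {Γ : Type} [Group Γ] {m : (Γ → ℝ) → ℝ} (hm : IsMean m) {f : Γ → ℝ} (hf : Bdd f)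
    (F : Finset Γ) : Bdd (fun γ => ∑ g ∈ F, f (γ * g)) ∧
      m (fun γ => ∑ g ∈ F, f (γ * g)) = F.card * m f := by
  classical
  induction F using Finset.induction_on with
  | empty =>
    refine ⟨⟨0, fun γ => by simp⟩, ?_⟩
    have h := hm.smul 0 (fun _ => 1) ⟨1, fun _ => by simp⟩
    simpa using h
  | insert a F ha ih =>
    have hb : Bdd (fun γ => f (γ * a)) := by
      obtain ⟨C, hC⟩ := hf
      exact ⟨C, fun γ => hC _⟩
    have e : (fun γ => ∑ g ∈ insert a F, f (γ * g)) =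
        fun γ => f (γ * a) + ∑ g ∈ F, f (γ * g) := by
      funext γ
      rw [Finset.sum_insert ha]
    rw [e]
    refine ⟨?_, ?_⟩
    · obtain ⟨C, hC⟩ := hb
      obtain ⟨D, hD⟩ := ih.1
      exact ⟨C + D, fun γ => (abs_add_le _ _).trans (add_le_add (hC γ) (hD γ))⟩
    · have h1 := hm.add (fun γ => f (γ * a)) (fun γ => ∑ g ∈ F, f (γ * g)) hb ih.1
      rw [h1, ih.2, hm.inv a f hf, Finset.card_insert_of_notMem ha]
      push_cast
      ring

theorem mean_pos {Γ : Type} [Group Γ] {m : (Γ → ℝ) → ℝ} (hm : IsMean m) {f : Γ → ℝ} (hf : Bdd f)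
    (F : Finset Γ) {c : ℝ} (hc : 0 < c) (hle : ∀ γ, c ≤ ∑ g ∈ F, f (γ * g)) : 0 < m f := by
  obtain ⟨hb, hs⟩ := mean_sum hm hf F
  have hbc : Bdd (fun _ : Γ => -c) := ⟨|(-c)|, fun _ => le_rfl⟩
  have h2 := hm.nonneg (fun γ : Γ => ∑ g ∈ F, f (γ * g) + (-c))
    (by
      obtain ⟨C, hC⟩ := hb
      exact ⟨C + |(-c)|, fun γ => (abs_add_le _ _).trans (add_le_add (hC γ) le_rfl)⟩)
    (fun γ => by have := hle γ; linarith)
  rw [hm.add _ _ hb hbc, hs] at h2
  have h3 : m (fun _ : Γ => -c) = -c := by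
    have h4 := hm.smul (-c) (fun _ => 1) ⟨1, fun _ => by simp⟩
    rw [hm.one] at h4
    simpa using h4
  rw [h3] at h2
  by_contra hn
  have h5 : (F.card : ℝ) * m f ≤ 0 := mul_nonpos_of_nonneg_of_nonpos (by positivity) (not_lt.1 hn)
  linarith

section

variable {d : ℕ} {Z X : Type} [TopologicalSpace Z] [ChartedSpace (E d) Z]
  [TopologicalSpace X] [ChartedSpace (E d) X] (Γ : Type) [Group Γ] [MulAction Γ Z]

/-- a finite sum of the translates of `w` is uniformly positive on the lifts of `(v, J v)` -/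
def SPos (pr : Z → X) (J : End d X) (w : Form d Z 2) (z : Z)
    (v : TangentSpace (𝓡 d) (pr z)) : Prop :=
  ∃ u u' : TangentSpace (𝓡 d) z, mfderiv (𝓡 d) (𝓡 d) pr z u = v ∧
    mfderiv (𝓡 d) (𝓡 d) pr z u' = J (pr z) v ∧
    ∃ (F : Finset Γ) (c : ℝ), 0 < c ∧
      ∀ γ : Γ, c ≤ ∑ g ∈ F, pull (d := d) (fun z : Z => (γ * g) • z) w z ![u, u']

/-- the points of `X` over which this fails -/
def NotS (pr : Z → X) (J : End d X) (w : Form d Z 2) : Set X :=
  {x | ∃ z : Z, pr z = x ∧ ∃ v : TangentSpace (𝓡 d) (pr z), v ≠ 0 ∧ ¬ SPos Γ pr J w z v}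

end

section

variable {d : ℕ} {Z X : Type} [TopologicalSpace Z] [ChartedSpace (E d) Z]
  [IsManifold (𝓡 d) ∞ Z] [TopologicalSpace X] [ChartedSpace (E d) X]
  [IsManifold (𝓡 d) ∞ X] {Γ : Type} [Group Γ] [MulAction Γ Z]

theorem amenS {n : ℕ} {Y : Type} [TopologicalSpace Y] [ChartedSpace (E n) Y]
    [IsManifold (𝓡 n) ∞ Y] [T2Space Y] {m : (Γ → ℝ) → ℝ} (hm : IsMean m)
    (hsm : ∀ γ : Γ, ContMDiff (𝓡 d) (𝓡 d) ∞ (fun z : Z => γ • z)) {pr : Z → X}
    (hpr : IsLocalDiffeomorph (𝓡 d) (𝓡 d) ∞ pr) (hsurj : Function.Surjective pr)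
    (hfib : ∀ z z' : Z, pr z = pr z' ↔ ∃ γ : Γ, γ • z = z')
    [CompactSpace X] [T2Space X] {J : End d X} (hJ : IsAlmostComplex J)
    {f : X → Y} (hf : ContMDiff (𝓡 d) (𝓡 n) ∞ f)
    {w : Form d Z 2} (hw : IsSmooth w) (hwc : IsClosedForm w)
    (hbd : BoundedTranslates (Γ := Γ) w)
    (hker : ∀ (z : Z) (v : TangentSpace (𝓡 d) (pr z)),
      mfderiv (𝓡 d) (𝓡 n) f (pr z) v ≠ 0 → SPos Γ pr J w z v)
    (hsmall : ∀ z : Z, pr z ∈ NotS Γ pr J w →
      SmallP J (connectedComponentIn (NotS Γ pr J w ∩ f ⁻¹' {f (pr z)}) (pr z)) (pr z)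
        (fun v => ¬ SPos Γ pr J w z v)) :
    ∃ σ : Form d X 2, IsSmooth σ ∧ IsClosedForm σ ∧ ∀ x, TamesAt σ J x := by
  obtain ⟨w', hw', hwc', hav⟩ := Pool.Agent.Y141.SY.t_MEAN Pool.Agent.Y153.SY.t_AVG d Z Γ m hm
    hsm w hw hwc hbd
  have hinv : ∀ γ : Γ, pull (d := d) (fun z : Z => γ • z) w' = w' := by
    intro g
    funext z
    ext u
    have hu : ![u 0, u 1] = u := by
      funext i; fin_cases i <;> rfl
    have e1 : pull (d := d) (fun z : Z => g • z) w' z u =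
        w' (g • z) ![mfderiv (𝓡 d) (𝓡 d) (fun z : Z => g • z) z (u 0),
          mfderiv (𝓡 d) (𝓡 d) (fun z : Z => g • z) z (u 1)] := by
      rw [← pull_apply, hu]
    rw [e1, (hav _ _).2, (hav _ _).2]
    have e2 : (fun γ : Γ => pull (d := d) (fun z : Z => γ • z) w (g • z)
        ![mfderiv (𝓡 d) (𝓡 d) (fun z : Z => g • z) z (u 0),
          mfderiv (𝓡 d) (𝓡 d) (fun z : Z => g • z) z (u 1)]) =
        fun γ : Γ => (fun γ : Γ => pull (d := d) (fun z : Z => γ • z) w z u) (γ * g) := by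
      funext γ
      rw [pull_mul hsm, hu]
    rw [e2, hm.inv g _ (hav z u).1]
  obtain ⟨σ, hσ, hσc, hpull⟩ := Pool.Agent.Y391.SY.t_DESC d Z X Γ pr hsm hpr hsurj hfib w' hw' hwc'
    hinv
  have key : ∀ (z : Z) (v : TangentSpace (𝓡 d) (pr z)),
      SPos Γ pr J w z v → 0 < σ (pr z) ![v, J (pr z) v] := by
    rintro z v ⟨u, u', hu, hu', F, c, hc, hle⟩
    have e1 : w' z ![u, u'] = σ (pr z) ![v, J (pr z) v] := by
      rw [← hpull, pull_apply, hu, hu']
    rw [← e1, (hav z _).2]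
    exact mean_pos hm (hav z ![u, u']).1 F hc hle
  have hsub : {x | ¬ TamesAt σ J x} ⊆ NotS Γ pr J w := by
    intro x hx
    obtain ⟨z, rfl⟩ := hsurj x
    by_contra hne
    apply hx
    intro v hv
    apply key z v
    by_contra hn
    exact hne ⟨z, rfl, v, hv, hn⟩
  have hker' : ∀ (x : X) (v : TangentSpace (𝓡 d) x), σ x ![v, J x v] ≤ 0 →
      mfderiv (𝓡 d) (𝓡 n) f x v = 0 := by
    intro x v hle
    obtain ⟨z, rfl⟩ := hsurj x
    by_contra hne
    exact absurd (key z v (hker z v hne)) (not_lt.2 hle)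
  obtain ⟨σ', α, h1, h2, h3, -, -, -⟩ := final hJ hσ hσc (f := f) hf hker' (by
      intro x hx
      obtain ⟨z, rfl⟩ := hsurj x
      refine (hsmall z (hsub hx)).smallAt (connectedComponentIn_mono _
        (inter_subset_inter_left _ hsub)) fun v hv hle => ?_
      intro hup
      exact absurd (key z v hup) (not_lt.2 hle))
  exact ⟨σ', h1, h2, h3⟩

end

end Pool.Agent.V11153.SY
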