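import Pool.Agent.V11153.SY.AmenS

/-!
Averaging over an amenable covering in a prescribed cohomology class, when finite sums of the
translates are uniformly positive outside a set with small components in the fibres of a map.
-/

set_option autoImplicit false

open Set Filter Topology MeasureTheory
open scoped Manifold ContDiff

noncomputable section

namespace Pool.Agent.V11153.SY

open Pool.Agent.Y501.SY

section

variable {d : ℕ} {Z X : Type} [TopologicalSpace Z] [ChartedSpace (E d) Z]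
  [IsManifold (𝓡 d) ∞ Z] [TopologicalSpace X] [ChartedSpace (E d) X]
  [IsManifold (𝓡 d) ∞ X] {Γ : Type} [Group Γ] [MulAction Γ Z]

theorem amenC {n : ℕ} {Y : Type} [TopologicalSpace Y] [ChartedSpace (E n) Y]
    [IsManifold (𝓡 n) ∞ Y] [T2Space Y]
    (hBT : S_BT) (hM1 : S_MEAN1) (hD1 : S_DESC1) {m : (Γ → ℝ) → ℝ} (hm : IsMean m)
    (hsm : ∀ γ : Γ, ContMDiff (𝓡 d) (𝓡 d) ∞ (fun z : Z => γ • z)) {pr : Z → X}
    (hpr : IsLocalDiffeomorph (𝓡 d) (𝓡 d) ∞ pr) (hsurj : Function.Surjective pr)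
    (hfib : ∀ z z' : Z, pr z = pr z' ↔ ∃ γ : Γ, γ • z = z')
    [CompactSpace X] [T2Space X] {J : End d X} (hJ : IsAlmostComplex J)
    {f : X → Y} (hf : ContMDiff (𝓡 d) (𝓡 n) ∞ f)
    {σ : Form d X 2} (hσ : IsSmooth σ) (hσc : IsClosedForm σ)
    {β : Form d Z 1} {η : Form d Z 2} (hβ : IsSmooth β) (hη : IsSmooth η) (hβη : IsD β η)
    (hbt : BoundedTranslates1 (Γ := Γ) β)
    (hker : ∀ (z : Z) (v : TangentSpace (𝓡 d) (pr z)),
      mfderiv (𝓡 d) (𝓡 n) f (pr z) v ≠ 0 → SPos Γ pr J (pull (d := d) pr σ + η) z v)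
    (hsmall : ∀ z : Z, pr z ∈ NotS Γ pr J (pull (d := d) pr σ + η) →
      SmallP J (connectedComponentIn (NotS Γ pr J (pull (d := d) pr σ + η) ∩ f ⁻¹' {f (pr z)})
        (pr z)) (pr z) (fun v => ¬ SPos Γ pr J (pull (d := d) pr σ + η) z v)) :
    ∃ (α : Form d X 1) (ρ : Form d X 2), IsSmooth α ∧ IsSmooth ρ ∧ IsD α ρ ∧
      IsClosedForm (σ + ρ) ∧ ∀ x, TamesAt (σ + ρ) J x := by
  have hbt2 := hBT d Z Γ hsm β η hβ hη hβη hbt
  obtain ⟨β', η', hβ', hη', hβη', hav1, hav2⟩ := hM1 Pool.Agent.Y153.SY.t_AVG d Z Γ m hm hsm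
    β η hβ hη hβη hbt hbt2
  have hcomp : ∀ (γ g : Γ), (fun z : Z => (γ * g) • z) =
      (fun z : Z => γ • z) ∘ (fun z : Z => g • z) := by
    intro γ g
    funext z; exact mul_smul γ g z
  have hinv1 : ∀ g : Γ, pull1 (d := d) (fun z : Z => g • z) β' = β' := by
    intro g
    funext z
    ext u
    have e1 := pull1_apply (fun z : Z => g • z) β' z u
    rw [e1, (hav1 _ _).2, (hav1 _ _).2]
    have e2 : (fun γ : Γ => pull1 (d := d) (fun z : Z => γ • z) β (g • z)
        ![mfderiv (𝓡 d) (𝓡 d) (fun z : Z => g • z) z (u 0)]) =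
        fun γ : Γ => (fun γ : Γ => pull1 (d := d) (fun z : Z => γ • z) β z u) (γ * g) := by
      funext γ
      have h2 : ∀ u : TangentSpace (𝓡 d) z,
          mfderiv (𝓡 d) (𝓡 d) ((fun z : Z => γ • z) ∘ (fun z : Z => g • z)) z u =
          mfderiv (𝓡 d) (𝓡 d) (fun z : Z => γ • z) (g • z)
            (mfderiv (𝓡 d) (𝓡 d) (fun z : Z => g • z) z u) := by
        intro u
        rw [mfderiv_comp z ((hsm γ (g • z)).mdifferentiableAt (by simp))
          ((hsm g z).mdifferentiableAt (by simp))]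
        rfl
      change _ = pull1 (d := d) (fun z : Z => (γ * g) • z) β z u
      rw [hcomp, pull1_apply, pull1_apply, h2]
      rfl
    rw [e2, hm.inv g _ (hav1 z u).1]
  have hinv2 : ∀ g : Γ, pull (d := d) (fun z : Z => g • z) η' = η' := by
    intro g
    funext z
    ext u
    have hu : ![u 0, u 1] = u := by
      funext i; fin_cases i <;> rfl
    have e1 : pull (d := d) (fun z : Z => g • z) η' z u =
        η' (g • z) ![mfderiv (𝓡 d) (𝓡 d) (fun z : Z => g • z) z (u 0),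
          mfderiv (𝓡 d) (𝓡 d) (fun z : Z => g • z) z (u 1)] := by
      rw [← pull_apply, hu]
    rw [e1, (hav2 _ _).2, (hav2 _ _).2]
    have e2 : (fun γ : Γ => pull (d := d) (fun z : Z => γ • z) η (g • z)
        ![mfderiv (𝓡 d) (𝓡 d) (fun z : Z => g • z) z (u 0),
          mfderiv (𝓡 d) (𝓡 d) (fun z : Z => g • z) z (u 1)]) =
        fun γ : Γ => (fun γ : Γ => pull (d := d) (fun z : Z => γ • z) η z u) (γ * g) := by
      funext γ
      rw [pull_mul hsm, hu]
    rw [e2, hm.inv g _ (hav2 z u).1]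
  obtain ⟨α₀, ρ₀, hα₀, hρ₀, hαρ₀, hpα, hpρ⟩ := hD1 d Z X Γ pr hsm hpr hsurj hfib β' η' hβ' hη'
    hβη' hinv1 hinv2
  have hρ₀c : IsClosedForm ρ₀ := closed_of_isD hα₀ hρ₀ hαρ₀
  have hσ' : IsSmooth (σ + ρ₀) := hσ.add hρ₀
  have hσ'c : IsClosedForm (σ + ρ₀) := by
    have h1 := hσc.add hρ₀c hσ hρ₀
    rwa [add_zero] at h1
  have hprs : ContMDiff (𝓡 d) (𝓡 d) ∞ pr := hpr.contMDiff
  have hprγ : ∀ (γ : Γ) (z : Z), pr (γ • z) = pr z := fun γ z =>
    ((hfib z (γ • z)).2 ⟨γ, rfl⟩).symm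
  -- positivity of the average
  have key : ∀ (z : Z) (v : TangentSpace (𝓡 d) (pr z)),
      SPos Γ pr J (pull (d := d) pr σ + η) z v → 0 < (σ + ρ₀) (pr z) ![v, J (pr z) v] := by
    rintro z v ⟨u, u', hu, hu', F, c, hc, hle⟩
    have e1 : (σ + ρ₀) (pr z) ![v, J (pr z) v] =
        pull (d := d) pr σ z ![u, u'] + η' z ![u, u'] := by
      have : (σ + ρ₀) (pr z) ![v, J (pr z) v] =
        σ (pr z) ![v, J (pr z) v] + ρ₀ (pr z) ![v, J (pr z) v] := rfl
      rw [this, ← hpρ, pull_apply, pull_apply, hu, hu']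
    have hb := (hav2 z ![u, u']).1
    have e2 : ∀ γ : Γ, pull (d := d) (fun z : Z => γ • z) (pull (d := d) pr σ + η) z ![u, u'] =
        pull (d := d) pr σ z ![u, u'] + pull (d := d) (fun z : Z => γ • z) η z ![u, u'] := by
      intro γ
      have h1 : pull (d := d) (fun z : Z => γ • z) (pull (d := d) pr σ + η) z ![u, u'] =
        pull (d := d) (fun z : Z => γ • z) (pull (d := d) pr σ) z ![u, u'] +
          pull (d := d) (fun z : Z => γ • z) η z ![u, u'] := rfl
      rw [h1, pull_inv hsm hprs hprγ]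
    rw [e1, (hav2 z _).2]
    have hbc : Bdd (fun _ : Γ => pull (d := d) pr σ z ![u, u']) := ⟨_, fun _ => le_rfl⟩
    have hbs : Bdd (fun γ : Γ => pull (d := d) pr σ z ![u, u'] +
        pull (d := d) (fun z : Z => γ • z) η z ![u, u']) := by
      obtain ⟨C, hC⟩ := hb
      exact ⟨|pull (d := d) pr σ z ![u, u']| + C,
        fun γ => (abs_add_le _ _).trans (add_le_add le_rfl (hC γ))⟩
    have h2 := mean_pos hm hbs F hc (fun γ => by
      refine (hle γ).trans (le_of_eq (Finset.sum_congr rfl fun g _ => e2 (γ * g))))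
    rw [hm.add _ _ hbc hb] at h2
    have h3 : m (fun _ : Γ => pull (d := d) pr σ z ![u, u']) =
        pull (d := d) pr σ z ![u, u'] := by
      have h4 := hm.smul (pull (d := d) pr σ z ![u, u']) (fun _ => 1) ⟨1, fun _ => by simp⟩
      rw [hm.one] at h4
      simpa using h4
    rw [h3] at h2
    exact h2
  have hsub : {x | ¬ TamesAt (σ + ρ₀) J x} ⊆ NotS Γ pr J (pull (d := d) pr σ + η) := by
    intro x hx
    obtain ⟨z, rfl⟩ := hsurj x
    by_contra hne
    apply hx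
    intro v hv
    apply key z v
    by_contra hn
    exact hne ⟨z, rfl, v, hv, hn⟩
  have hker' : ∀ (x : X) (v : TangentSpace (𝓡 d) x), (σ + ρ₀) x ![v, J x v] ≤ 0 →
      mfderiv (𝓡 d) (𝓡 n) f x v = 0 := by
    intro x v hle
    obtain ⟨z, rfl⟩ := hsurj x
    by_contra hne
    exact absurd (key z v (hker z v hne)) (not_lt.2 hle)
  obtain ⟨σ', α, h1, h2, h3, -, h5, h6⟩ := final hJ hσ' hσ'c (f := f) hf hker' (by
      intro x hx
      obtain ⟨z, rfl⟩ := hsurj x
      refine (hsmall z (hsub hx)).smallAt (connectedComponentIn_mono _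
        (inter_subset_inter_left _ hsub)) fun v hv hle => ?_
      intro hup
      exact absurd (key z v hup) (not_lt.2 hle))
  have hρ : IsSmooth (σ' - σ) := by
    have h7 := h1.add (hσ.smul (-1))
    have h8 : σ' + (-1 : ℝ) • σ = σ' - σ := by
      funext x
      ext u
      change σ' x u + (-1 : ℝ) * σ x u = σ' x u - σ x u
      ring
    rwa [h8] at h7
  refine ⟨α₀ + α, σ' - σ, hα₀.add h5, hρ, ?_, ?_, ?_⟩
  · have h7 := hαρ₀.add h6 hα₀ h5
    have h8 : ρ₀ + (σ' - (σ + ρ₀)) = σ' - σ := by abel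
    rwa [h8] at h7
  · rwa [add_sub_cancel]
  · rwa [add_sub_cancel]

end

end Pool.Agent.V11153.SY
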